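import Pool.Agent.N502.FR.Stm

/-! Project FR (helper502), part DUA: the dual poset.  Author: helper451. -/

set_option autoImplicit false

namespace Pool.Agent.N451.FRDUA

open Pool.Agent.H13R3.WB (prob)

/-- reversal of a numbering -/
def rv {P : Type} [Fintype P] :
    (Pᵒᵈ ≃ Fin (Fintype.card Pᵒᵈ)) ≃ (P ≃ Fin (Fintype.card P)) where
  toFun f := (OrderDual.toDual.trans f).trans Fin.revPerm
  invFun f := (OrderDual.ofDual.trans f).trans Fin.revPerm
  left_inv f := by
    apply Equiv.ext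
    intro p
    exact Fin.rev_rev _
  right_inv f := by
    apply Equiv.ext
    intro p
    exact Fin.rev_rev _

theorem rv_apply {P : Type} [Fintype P] (f : Pᵒᵈ ≃ Fin (Fintype.card Pᵒᵈ)) (p : P) :
    rv f p = Fin.rev (f (OrderDual.toDual p)) := rfl

theorem rv_mono {P : Type} [Fintype P] [PartialOrder P] (f : Pᵒᵈ ≃ Fin (Fintype.card Pᵒᵈ)) :
    Monotone f ↔ Monotone (rv f) := by
  constructor
  · intro h p q hpq
    rw [rv_apply, rv_apply]
    exact Fin.rev_le_rev.2 (h (OrderDual.toDual_le_toDual.2 hpq))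
  · intro h p q hpq
    have h1 := h (OrderDual.ofDual_le_ofDual.2 hpq)
    rw [rv_apply, rv_apply] at h1
    exact Fin.rev_le_rev.1 h1

theorem rv_lt {P : Type} [Fintype P] (f : Pᵒᵈ ≃ Fin (Fintype.card Pᵒᵈ)) (x y : P) :
    f (OrderDual.toDual x) < f (OrderDual.toDual y) ↔ rv f y < rv f x := by
  rw [rv_apply, rv_apply]
  exact Fin.rev_lt_rev.symm

/-- Part (DUA). -/
theorem main : Pool.Agent.N502.FR.S_DUA := by
  intro P _ _ x y
  unfold prob
  have h1 : Nat.card {f : Pᵒᵈ ≃ Fin (Fintype.card Pᵒᵈ) // Monotone f ∧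
      f (OrderDual.toDual x) < f (OrderDual.toDual y)} =
      Nat.card {f : P ≃ Fin (Fintype.card P) // Monotone f ∧ f y < f x} :=
    Nat.card_congr (Equiv.subtypeEquiv rv fun f => and_congr (rv_mono f) (rv_lt f x y))
  have h2 : Nat.card {f : Pᵒᵈ ≃ Fin (Fintype.card Pᵒᵈ) // Monotone f} =
      Nat.card {f : P ≃ Fin (Fintype.card P) // Monotone f} :=
    Nat.card_congr (Equiv.subtypeEquiv rv fun f => rv_mono f)
  rw [h1, h2]

end Pool.Agent.N451.FRDUA
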