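import Pool.Agent.N979.P1.Stm

/-!
# PROJECT P1 (helper979), part VALD (helper451): the value of `k` on the boundary circle
-/

set_option autoImplicit false

open MeasureTheory Metric Set Filter Topology InnerProductGeometry Matrix

namespace Pool.Agent.N451.P1VALD

open Pool.Agent.H241R3.FV Pool.Agent.N526.CP Pool.Agent.N979.P1

theorem norm_circ (Z : ℝ) (hZ : 0 < Z) (v : ℝ) :
    ‖(!₂[Z * Real.cos v, Z * Real.sin v] : E 2)‖ = Z := by
  rw [EuclideanSpace.norm_eq, Fin.sum_univ_two]
  have h : ‖(!₂[Z * Real.cos v, Z * Real.sin v] : E 2) 0‖ ^ 2 +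
      ‖(!₂[Z * Real.cos v, Z * Real.sin v] : E 2) 1‖ ^ 2 = Z ^ 2 := by
    have e0 : (!₂[Z * Real.cos v, Z * Real.sin v] : E 2) 0 = Z * Real.cos v := rfl
    have e1 : (!₂[Z * Real.cos v, Z * Real.sin v] : E 2) 1 = Z * Real.sin v := rfl
    rw [e0, e1, Real.norm_eq_abs, Real.norm_eq_abs, sq_abs, sq_abs]
    have := Real.sin_sq_add_cos_sq v
    nlinarith
  rw [h, Real.sqrt_sq hZ.le]

theorem Mc_circ (t : ℝ) (ht : 0 < t) (v : ℝ) (hv : 0 ≤ Real.sin v) (Z : ℝ) (hZ : 0 < Z) :
    Mc t !₂[Z * Real.cos v, Z * Real.sin v] = Z * min (t * |Real.cos v|) (Real.sin v) := by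
  unfold Mc
  have e0 : (!₂[Z * Real.cos v, Z * Real.sin v] : E 2) 0 = Z * Real.cos v := rfl
  have e1 : (!₂[Z * Real.cos v, Z * Real.sin v] : E 2) 1 = Z * Real.sin v := rfl
  rw [e0, e1, abs_mul, abs_of_pos hZ]
  have e2 : t * (Z * |Real.cos v|) = Z * (t * |Real.cos v|) := by ring
  rw [e2, ← mul_min_of_nonneg _ _ hZ.le]
  apply max_eq_right
  have h1 : 0 ≤ t * |Real.cos v| := by positivity
  have h2 : 0 ≤ min (t * |Real.cos v|) (Real.sin v) := le_min h1 hv
  have h3 : 0 ≤ Z * (t * |Real.cos v|) := by positivity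
  have h4 : 0 ≤ Z * min (t * |Real.cos v|) (Real.sin v) := by positivity
  linarith

theorem int_half (t : ℝ) (ht : 0 < t) :
    ∫ v in (0 : ℝ)..(Real.pi / 2), min (t * |Real.cos v|) (Real.sin v) =
      1 - (√(1 + t ^ 2))⁻¹ + (t - t ^ 2 * (√(1 + t ^ 2))⁻¹) := by
  have hcont : Continuous (fun v : ℝ => min (t * |Real.cos v|) (Real.sin v)) := by fun_prop
  have ha0 : 0 < Real.arctan t := Real.arctan_pos.mpr ht
  have ha1 : Real.arctan t < Real.pi / 2 := Real.arctan_lt_pi_div_two t
  have hs : 0 < √(1 + t ^ 2) := Real.sqrt_pos.mpr (by positivity)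
  have hpi := Real.pi_pos
  rw [← intervalIntegral.integral_add_adjacent_intervals (hcont.intervalIntegrable 0 (Real.arctan t))
    (hcont.intervalIntegrable (Real.arctan t) (Real.pi / 2))]
  have key : ∀ v : ℝ, Real.sin (v - Real.arctan t) * √(1 + t ^ 2) =
      Real.sin v - t * Real.cos v := by
    intro v
    rw [Real.sin_sub, Real.cos_arctan, Real.sin_arctan]
    field_simp
  have i1 : ∫ v in (0 : ℝ)..(Real.arctan t), min (t * |Real.cos v|) (Real.sin v) =
      ∫ v in (0 : ℝ)..(Real.arctan t), Real.sin v := by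
    apply intervalIntegral.integral_congr
    intro v hv
    rw [Set.uIcc_of_le ha0.le] at hv
    have hc : 0 ≤ Real.cos v := Real.cos_nonneg_of_mem_Icc ⟨by linarith [hv.1], by linarith [hv.2]⟩
    have h1 : Real.sin (v - Real.arctan t) ≤ 0 :=
      Real.sin_nonpos_of_nonpos_of_neg_pi_le (by linarith [hv.2]) (by linarith [hv.1])
    have h2 := key v
    have h3 : Real.sin (v - Real.arctan t) * √(1 + t ^ 2) ≤ 0 :=
      mul_nonpos_of_nonpos_of_nonneg h1 hs.le
    simp only
    rw [abs_of_nonneg hc]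
    exact min_eq_right (by linarith)
  have i2 : ∫ v in (Real.arctan t)..(Real.pi / 2), min (t * |Real.cos v|) (Real.sin v) =
      ∫ v in (Real.arctan t)..(Real.pi / 2), t * Real.cos v := by
    apply intervalIntegral.integral_congr
    intro v hv
    rw [Set.uIcc_of_le ha1.le] at hv
    have hc : 0 ≤ Real.cos v := Real.cos_nonneg_of_mem_Icc ⟨by linarith [hv.1], by linarith [hv.2]⟩
    have h1 : 0 ≤ Real.sin (v - Real.arctan t) :=
      Real.sin_nonneg_of_nonneg_of_le_pi (by linarith [hv.1]) (by linarith [hv.2])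
    have h2 := key v
    have h3 : 0 ≤ Real.sin (v - Real.arctan t) * √(1 + t ^ 2) := mul_nonneg h1 hs.le
    simp only
    rw [abs_of_nonneg hc]
    exact min_eq_left (by linarith)
  rw [i1, i2, integral_sin, intervalIntegral.integral_const_mul, integral_cos, Real.cos_zero,
    Real.sin_pi_div_two, Real.cos_arctan, Real.sin_arctan]
  field_simp

theorem int_full (t : ℝ) (ht : 0 < t) :
    ∫ v in (0 : ℝ)..Real.pi, min (t * |Real.cos v|) (Real.sin v) =
      2 * (1 - (√(1 + t ^ 2))⁻¹ + (t - t ^ 2 * (√(1 + t ^ 2))⁻¹)) := by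
  have hcont : Continuous (fun v : ℝ => min (t * |Real.cos v|) (Real.sin v)) := by fun_prop
  rw [← intervalIntegral.integral_add_adjacent_intervals (hcont.intervalIntegrable 0 (Real.pi / 2))
    (hcont.intervalIntegrable (Real.pi / 2) Real.pi)]
  have h1 := intervalIntegral.integral_comp_sub_left (a := 0) (b := Real.pi / 2)
    (fun v : ℝ => min (t * |Real.cos v|) (Real.sin v)) Real.pi
  have h2 : Real.pi - Real.pi / 2 = Real.pi / 2 := by ring
  rw [h2, sub_zero] at h1
  simp only [Real.cos_pi_sub, Real.sin_pi_sub, abs_neg] at h1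
  rw [← h1, int_half t ht]
  ring

theorem main : S_VALD := by
  intro N L D hρ hρ2 ht
  obtain ⟨Z, hZ⟩ : ∃ Z, Z = 2 / Real.pi := ⟨_, rfl⟩
  have hZ0 : 0 < Z := by rw [hZ]; positivity
  rw [← hZ] at hρ2 ⊢
  have hcont : ∀ i, Continuous (fun v : ℝ => min (D.t i * |Real.cos v|) (Real.sin v)) := by
    intro i
    fun_prop
  have e : ∫ v in (0 : ℝ)..Real.pi, D.k !₂[Z * Real.cos v, Z * Real.sin v] =
      ∫ v in (0 : ℝ)..Real.pi, ((Z * D.ka) * Real.sin v + ∑ j, (Z - D.ρ j) *
        (D.m0 j * Real.sin v + ∑ i, D.m j i * min (D.t i * |Real.cos v|) (Real.sin v))) := by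
    apply intervalIntegral.integral_congr
    intro v hv
    rw [Set.uIcc_of_le Real.pi_pos.le] at hv
    have hs : 0 ≤ Real.sin v := Real.sin_nonneg_of_nonneg_of_le_pi hv.1 hv.2
    simp only
    unfold Dat.k
    rw [norm_circ Z hZ0 v]
    have e1 : (!₂[Z * Real.cos v, Z * Real.sin v] : E 2) 1 = Z * Real.sin v := rfl
    rw [e1]
    congr 1
    · ring
    · refine Finset.sum_congr rfl fun j _ => ?_
      have e2 : max 0 (1 - D.ρ j / Z) = 1 - D.ρ j / Z := by
        apply max_eq_right
        rw [sub_nonneg, div_le_one hZ0]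
        exact hρ2 j
      rw [e2, Finset.sum_congr rfl (fun i _ => by rw [Mc_circ (D.t i) (ht i) v hs Z hZ0])]
      have e3 : ∑ i, D.m j i * (Z * min (D.t i * |Real.cos v|) (Real.sin v)) =
          Z * ∑ i, D.m j i * min (D.t i * |Real.cos v|) (Real.sin v) := by
        rw [Finset.mul_sum]
        refine Finset.sum_congr rfl fun i _ => ?_
        ring
      rw [e3]
      generalize ∑ i, D.m j i * min (D.t i * |Real.cos v|) (Real.sin v) = w
      field_simp
  rw [e, intervalIntegral.integral_add, intervalIntegral.integral_const_mul,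
    intervalIntegral.integral_finsetSum]
  · have e4 : ∀ j, ∫ v in (0 : ℝ)..Real.pi, (Z - D.ρ j) *
        (D.m0 j * Real.sin v + ∑ i, D.m j i * min (D.t i * |Real.cos v|) (Real.sin v)) =
        2 * ((Z - D.ρ j) * (D.m0 j + ∑ i, D.m j i *
          (1 - (√(1 + D.t i ^ 2))⁻¹ + (D.t i - D.t i ^ 2 * (√(1 + D.t i ^ 2))⁻¹)))) := by
      intro j
      rw [intervalIntegral.integral_const_mul, intervalIntegral.integral_add,
        intervalIntegral.integral_const_mul, intervalIntegral.integral_finsetSum]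
      · have e5 : ∀ i, ∫ v in (0 : ℝ)..Real.pi, D.m j i * min (D.t i * |Real.cos v|) (Real.sin v) =
            2 * (D.m j i * (1 - (√(1 + D.t i ^ 2))⁻¹ +
              (D.t i - D.t i ^ 2 * (√(1 + D.t i ^ 2))⁻¹))) := by
          intro i
          rw [intervalIntegral.integral_const_mul, int_full _ (ht i)]
          ring
        rw [Finset.sum_congr rfl (fun i _ => e5 i), ← Finset.mul_sum, integral_sin, Real.cos_zero,
          Real.cos_pi]
        ring
      · intro i _
        exact ((hcont i).const_mul (D.m j i)).intervalIntegrable _ _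
      · exact (Real.continuous_sin.const_mul (D.m0 j)).intervalIntegrable _ _
      · exact (continuous_finsetSum _ fun i _ => (hcont i).const_mul (D.m j i)).intervalIntegrable _ _
    rw [Finset.sum_congr rfl (fun j _ => e4 j), ← Finset.mul_sum, integral_sin, Real.cos_zero,
      Real.cos_pi]
    ring
  · intro j _
    refine Continuous.intervalIntegrable ?_ _ _
    exact ((Real.continuous_sin.const_mul (D.m0 j)).add
      (continuous_finsetSum _ fun i _ => (hcont i).const_mul (D.m j i))).const_mul _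
  · exact (Real.continuous_sin.const_mul _).intervalIntegrable _ _
  · refine Continuous.intervalIntegrable ?_ _ _
    refine continuous_finsetSum _ fun j _ => ?_
    exact ((Real.continuous_sin.const_mul (D.m0 j)).add
      (continuous_finsetSum _ fun i _ => (hcont i).const_mul (D.m j i))).const_mul _

end Pool.Agent.N451.P1VALD
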